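import Pool.Agent.Y602.ES.Sum
import Pool.Agent.NPC.Sat
import Pool.Agent.NPC.Dec

/-!
# EDGE-STRONG is DP-hard
-/

set_option autoImplicit false

namespace Pool.Agent.Y602.ES

open Pool.Agent.H622R2 Pool.Agent.NPC Pool.Agent.H495R3 Pool.Agent.H609R2

/-- The class `DP`: the differences of two `NP` sets. -/
def InDP (L : Set (List Bool)) : Prop := ∃ A B : Set (List Bool), InNP A ∧ InNP B ∧ L = A \ B

/-- Hardness for `DP` under polynomial-time many-one reductions. -/
def DPHardP {α : Type} [TEnc α] (P : α → Prop) : Prop := ∀ L, InDP L → Reduces L (lang P)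

theorem hardI_edgeStrong : HardI (fun M : List (List Bool) => EdgeStrong (matGraph M)) :=
  HardI.trans (Q := fun M : List (List Bool) => EdgeStrong (matGraph M)) hardI_SAT3 esRed_poly
    (fun φ => esRed_correct φ)

theorem eqRed_edgeStrong {φ : List C3} (h1 : Distinct3 φ) (h2 : Bounded3 φ) (h3 : φ ≠ []) :
    SAT3 φ ↔ ¬ EdgeStrong (matGraph (eqRed φ)) := by
  constructor
  · intro hs h
    exact (eqRed_triangle h1 h2 h3).1 hs (IsTriangleGraph.of_edgeStrong h)
  · intro h
    by_contra hun
    exact h (eqRed_unsat h1 h2 hun)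

theorem hardI_not_edgeStrong : HardI (fun M : List (List Bool) => ¬ EdgeStrong (matGraph M)) :=
  (hardPr_SAT3b.trans (Pr' := fun _ => True) eqRed_poly (fun _ _ => trivial)
    (fun _ h => eqRed_edgeStrong h.1 h.2.1 h.2.2)).toHardI

theorem PC_pair {α β : Type} [TEnc α] [TEnc β] {f : List Bool → α} {g : List Bool → β}
    (hf : PC (fun x : List Bool => x) (bits : α → List Bool) f)
    (hg : PC (fun x : List Bool => x) (bits : β → List Bool) g) :
    PC (fun x : List Bool => x) (bits : α × β → List Bool) (fun x => (f x, g x)) :=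
  PC.node hf hg

/-- EDGE-STRONG is DP-hard. -/
theorem edgeStrong_DPHard : DPHardP (fun M : List (List Bool) => EdgeStrong (matGraph M)) := by
  rintro L ⟨A, B, hA, hB, rfl⟩
  obtain ⟨f, hf, hfA⟩ := hardI_edgeStrong A hA
  obtain ⟨g, hg, hgB⟩ := hardI_not_edgeStrong B hB
  refine ⟨fun x => bits (dsum (f x, g x)),
    PC.toPolyTime (PC.comp (g := dsum) dsum_poly (PC_pair hf hg)), fun x => ?_⟩
  rw [bits_mem_lang, edgeStrong_dsum, Set.mem_diff, hfA x, hgB x, not_not]

end Pool.Agent.Y602.ES
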