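import Pool.Agent.H622R2.EdgeStrongRed
import Pool.Agent.H495R3.Tri

/-!
# Strong cliques in disjoint unions
-/

set_option autoImplicit false

namespace Pool.Agent.Y602.ES

open Pool.Agent.H622R2 Pool.Agent.NPC Pool.Agent.H495R3

section graph

variable {V W : Type} {G : SimpleGraph V} {H : SimpleGraph W}

theorem exists_mis [Finite V] (G : SimpleGraph V) : ∃ S : Set V, Maximal G.IsIndepSet S := by
  obtain ⟨S, _, hS⟩ := (Set.toFinite {C : Set V | G.IsIndepSet C}).exists_le_maximal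
    (show (∅ : Set V) ∈ {C : Set V | G.IsIndepSet C} from by simp)
  exact ⟨S, hS⟩

theorem indep_union {S : Set V} {T : Set W} :
    (G ⊕g H).IsIndepSet (Sum.inl '' S ∪ Sum.inr '' T) ↔ G.IsIndepSet S ∧ H.IsIndepSet T := by
  constructor
  · intro h
    refine ⟨fun a ha b hb hab => ?_, fun a ha b hb hab => ?_⟩
    · have := h (Or.inl ⟨a, ha, rfl⟩) (Or.inl ⟨b, hb, rfl⟩) (by simpa using hab)
      simpa using this
    · have := h (Or.inr ⟨a, ha, rfl⟩) (Or.inr ⟨b, hb, rfl⟩) (by simpa using hab)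
      simpa using this
  · rintro ⟨h1, h2⟩ x hx y hy hxy
    rcases hx with ⟨a, ha, rfl⟩ | ⟨a, ha, rfl⟩ <;> rcases hy with ⟨b, hb, rfl⟩ | ⟨b, hb, rfl⟩
    · have := h1 ha hb (fun h => hxy (by rw [h]))
      simpa using this
    · simp
    · simp
    · have := h2 ha hb (fun h => hxy (by rw [h]))
      simpa using this

theorem eq_union (S : Set (V ⊕ W)) : S = Sum.inl '' (Sum.inl ⁻¹' S) ∪ Sum.inr '' (Sum.inr ⁻¹' S) := by
  ext x
  rcases x with a | a <;> simp

/-- The maximal stable sets of a disjoint union. -/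
theorem maximal_union {S : Set (V ⊕ W)} : Maximal (G ⊕g H).IsIndepSet S ↔
    Maximal G.IsIndepSet (Sum.inl ⁻¹' S) ∧ Maximal H.IsIndepSet (Sum.inr ⁻¹' S) := by
  constructor
  · intro h
    have h0 := h.1
    rw [eq_union S, indep_union] at h0
    refine ⟨⟨h0.1, fun T hT hST a ha => ?_⟩, ⟨h0.2, fun T hT hST a ha => ?_⟩⟩
    · have h1 : (G ⊕g H).IsIndepSet (Sum.inl '' T ∪ Sum.inr '' (Sum.inr ⁻¹' S)) :=
        indep_union.2 ⟨hT, h0.2⟩
      have h2 : S ⊆ Sum.inl '' T ∪ Sum.inr '' (Sum.inr ⁻¹' S) := by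
        intro x hx
        rcases x with b | b
        · exact Or.inl ⟨b, hST hx, rfl⟩
        · exact Or.inr ⟨b, hx, rfl⟩
      exact h.2 h1 h2 (Or.inl ⟨a, ha, rfl⟩)
    · have h1 : (G ⊕g H).IsIndepSet (Sum.inl '' (Sum.inl ⁻¹' S) ∪ Sum.inr '' T) :=
        indep_union.2 ⟨h0.1, hT⟩
      have h2 : S ⊆ Sum.inl '' (Sum.inl ⁻¹' S) ∪ Sum.inr '' T := by
        intro x hx
        rcases x with b | b
        · exact Or.inl ⟨b, hx, rfl⟩
        · exact Or.inr ⟨b, hST hx, rfl⟩
      exact h.2 h1 h2 (Or.inr ⟨a, ha, rfl⟩)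
  · rintro ⟨h1, h2⟩
    refine ⟨?_, fun T hT hST x hx => ?_⟩
    · rw [eq_union S, indep_union]
      exact ⟨h1.1, h2.1⟩
    · rw [eq_union T, indep_union] at hT
      rcases x with a | a
      · exact h1.2 hT.1 (fun b hb => hST hb) hx
      · exact h2.2 hT.2 (fun b hb => hST hb) hx

theorem mis_union {S : Set V} {T : Set W} (hS : Maximal G.IsIndepSet S)
    (hT : Maximal H.IsIndepSet T) : Maximal (G ⊕g H).IsIndepSet (Sum.inl '' S ∪ Sum.inr '' T) := by
  rw [maximal_union]
  constructor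
  · convert hS using 1
    ext a; simp
  · convert hT using 1
    ext a; simp

/-- Every edge of a disjoint union is in a strong clique exactly when this is so for both parts. -/
theorem edgeStrong_sum [Finite V] [Finite W] :
    EdgeStrong (G ⊕g H) ↔ EdgeStrong G ∧ EdgeStrong H := by
  constructor
  · intro h
    constructor
    · intro x y hxy
      obtain ⟨C, ⟨hC1, hC2⟩, hx, hy⟩ := h (Sum.inl x) (Sum.inl y) (by simpa using hxy)
      refine ⟨Sum.inl ⁻¹' C, ⟨?_, ?_⟩, hx, hy⟩
      · intro a ha b hb hab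
        have := hC1 ha hb (by simpa using hab)
        simpa using this
      · intro S hS
        obtain ⟨T, hT⟩ := exists_mis H
        obtain ⟨c, hc, hc'⟩ := hC2 _ (mis_union hS hT)
        rcases c with c | c
        · exact ⟨c, hc, by simpa using hc'⟩
        · have := hC1 hx hc (by simp)
          simp at this
    · intro x y hxy
      obtain ⟨C, ⟨hC1, hC2⟩, hx, hy⟩ := h (Sum.inr x) (Sum.inr y) (by simpa using hxy)
      refine ⟨Sum.inr ⁻¹' C, ⟨?_, ?_⟩, hx, hy⟩
      · intro a ha b hb hab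
        have := hC1 ha hb (by simpa using hab)
        simpa using this
      · intro S hS
        obtain ⟨T, hT⟩ := exists_mis G
        obtain ⟨c, hc, hc'⟩ := hC2 _ (mis_union hT hS)
        rcases c with c | c
        · have := hC1 hx hc (by simp)
          simp at this
        · exact ⟨c, hc, by simpa using hc'⟩
  · rintro ⟨h1, h2⟩ x y hxy
    rcases x with x | x <;> rcases y with y | y
    · obtain ⟨C, ⟨hC1, hC2⟩, hx, hy⟩ := h1 x y (by simpa using hxy)
      refine ⟨Sum.inl '' C, ⟨?_, ?_⟩, ⟨x, hx, rfl⟩, ⟨y, hy, rfl⟩⟩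
      · rintro _ ⟨a, ha, rfl⟩ _ ⟨b, hb, rfl⟩ hab
        have := hC1 ha hb (fun h => hab (by rw [h]))
        simpa using this
      · intro S hS
        obtain ⟨c, hc, hc'⟩ := hC2 _ (maximal_union.1 hS).1
        exact ⟨Sum.inl c, ⟨c, hc, rfl⟩, hc'⟩
    · simp at hxy
    · simp at hxy
    · obtain ⟨C, ⟨hC1, hC2⟩, hx, hy⟩ := h2 x y (by simpa using hxy)
      refine ⟨Sum.inr '' C, ⟨?_, ?_⟩, ⟨x, hx, rfl⟩, ⟨y, hy, rfl⟩⟩
      · rintro _ ⟨a, ha, rfl⟩ _ ⟨b, hb, rfl⟩ hab
        have := hC1 ha hb (fun h => hab (by rw [h]))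
        simpa using this
      · intro S hS
        obtain ⟨c, hc, hc'⟩ := hC2 _ (maximal_union.1 hS).2
        exact ⟨Sum.inr c, ⟨c, hc, rfl⟩, hc'⟩

end graph

/-! ### Matrices -/

/-- the labels of a disjoint union -/
def labS (p : List (List Bool) × List (List Bool)) : List (ℕ ⊕ ℕ) :=
  (List.range p.1.length).map Sum.inl ++ (List.range p.2.length).map Sum.inr

/-- adjacency in a disjoint union -/
def adjS (p : List (List Bool) × List (List Bool)) : ℕ ⊕ ℕ → ℕ ⊕ ℕ → Bool
  | Sum.inl i, Sum.inl j => adjB p.1 i j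
  | Sum.inr i, Sum.inr j => adjB p.2 i j
  | _, _ => false

/-- the adjacency matrix of the disjoint union -/
def dsum (p : List (List Bool) × List (List Bool)) : List (List Bool) := mat (labS p) (adjS p)

theorem labS_nodup (p : List (List Bool) × List (List Bool)) : (labS p).Nodup := by
  unfold labS
  rw [List.nodup_append]
  refine ⟨List.nodup_range.map Sum.inl_injective, List.nodup_range.map Sum.inr_injective, ?_⟩
  intro x hx y hy hxy
  subst hxy
  rw [List.mem_map] at hx hy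
  obtain ⟨a, _, rfl⟩ := hx
  obtain ⟨b, _, hb⟩ := hy
  exact absurd hb (by simp)

theorem mem_labS_inl (p : List (List Bool) × List (List Bool)) (i : ℕ) :
    (Sum.inl i : ℕ ⊕ ℕ) ∈ labS p ↔ i < p.1.length := by
  simp [labS]

theorem mem_labS_inr (p : List (List Bool) × List (List Bool)) (i : ℕ) :
    (Sum.inr i : ℕ ⊕ ℕ) ∈ labS p ↔ i < p.2.length := by
  simp [labS]

/-- The graph of the disjoint union. -/
noncomputable def isoS (p : List (List Bool) × List (List Bool)) :
    labGraph (labS p) (adjS p) ≃g (matGraph p.1 ⊕g matGraph p.2) where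
  toFun x := match x with
    | ⟨Sum.inl i, h⟩ => Sum.inl ⟨i, (mem_labS_inl p i).1 h⟩
    | ⟨Sum.inr i, h⟩ => Sum.inr ⟨i, (mem_labS_inr p i).1 h⟩
  invFun x := match x with
    | Sum.inl i => ⟨Sum.inl i, (mem_labS_inl p i).2 i.2⟩
    | Sum.inr i => ⟨Sum.inr i, (mem_labS_inr p i).2 i.2⟩
  left_inv := by rintro ⟨i | i, h⟩ <;> rfl
  right_inv := by rintro (i | i) <;> rfl
  map_rel_iff' := by
    rintro ⟨i | i, hi⟩ ⟨j | j, hj⟩
    · have h1 := adjB_iff p.1 ⟨i, (mem_labS_inl p i).1 hi⟩ ⟨j, (mem_labS_inl p j).1 hj⟩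
      have h2 := adjB_iff p.1 ⟨j, (mem_labS_inl p j).1 hj⟩ ⟨i, (mem_labS_inl p i).1 hi⟩
      simp only [labGraph, adjS, SimpleGraph.sum_adj, Equiv.coe_fn_mk] at h1 h2 ⊢
      rw [h1, h2, SimpleGraph.adj_comm _ (⟨j, _⟩ : Fin _), or_self]
      constructor
      · intro h
        refine ⟨?_, h⟩
        rintro heq
        simp only [Subtype.mk.injEq, Sum.inl.injEq] at heq
        subst heq
        exact (matGraph p.1).irrefl h
      · intro h
        exact h.2
    · simp [labGraph, adjS]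
    · simp [labGraph, adjS]
    · have h1 := adjB_iff p.2 ⟨i, (mem_labS_inr p i).1 hi⟩ ⟨j, (mem_labS_inr p j).1 hj⟩
      have h2 := adjB_iff p.2 ⟨j, (mem_labS_inr p j).1 hj⟩ ⟨i, (mem_labS_inr p i).1 hi⟩
      simp only [labGraph, adjS, SimpleGraph.sum_adj, Equiv.coe_fn_mk] at h1 h2 ⊢
      rw [h1, h2, SimpleGraph.adj_comm _ (⟨j, _⟩ : Fin _), or_self]
      constructor
      · intro h
        refine ⟨?_, h⟩
        rintro heq
        simp only [Subtype.mk.injEq, Sum.inr.injEq] at heq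
        subst heq
        exact (matGraph p.2).irrefl h
      · intro h
        exact h.2

/-- The disjoint union of matrices computes the conjunction. -/
theorem edgeStrong_dsum (p : List (List Bool) × List (List Bool)) :
    EdgeStrong (matGraph (dsum p)) ↔ EdgeStrong (matGraph p.1) ∧ EdgeStrong (matGraph p.2) := by
  classical
  have e := (matIso (labS p) (adjS p) (labS_nodup p)).trans (isoS p)
  rw [← edgeStrong_sum]
  exact ⟨EdgeStrong.of_iso e, EdgeStrong.of_iso e.symm⟩

section poly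

open Poly

theorem labS_poly : Poly labS := by
  unfold labS
  refine append (map (F := fun _ i => (Sum.inl i : ℕ ⊕ ℕ)) (range_length (fst id)) (inl (snd id)))
    (map (F := fun _ i => (Sum.inr i : ℕ ⊕ ℕ)) (range_length (snd id)) (inr (snd id)))

theorem adjS_poly : Poly (fun z : ((List (List Bool) × List (List Bool)) × (ℕ ⊕ ℕ)) × (ℕ ⊕ ℕ) =>
    adjS z.1.1 z.1.2 z.2) := by
  have h1 := sumCases (o := fun q : (((List (List Bool) × List (List Bool)) × (ℕ ⊕ ℕ)) × (ℕ ⊕ ℕ)) × ℕ
      => q.1.2)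
    (g := fun q j => adjB q.1.1.1.1 q.2 j) (h := fun _ _ => false) (snd (fst id))
    (by fun_prop) (NPC.Poly.const _)
  have h2 := sumCases (o := fun q : (((List (List Bool) × List (List Bool)) × (ℕ ⊕ ℕ)) × (ℕ ⊕ ℕ)) × ℕ
      => q.1.2)
    (g := fun _ _ => false) (h := fun q j => adjB q.1.1.1.2 q.2 j) (snd (fst id))
    (NPC.Poly.const _) (by fun_prop)
  refine (sumCases (o := fun z : ((List (List Bool) × List (List Bool)) × (ℕ ⊕ ℕ)) × (ℕ ⊕ ℕ) => z.1.2)
    (g := fun z i => match z.2 with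
      | Sum.inl j => adjB z.1.1.1 i j
      | Sum.inr _ => false)
    (h := fun z i => match z.2 with
      | Sum.inl _ => false
      | Sum.inr j => adjB z.1.1.2 i j) (snd (fst id)) (h1.congr ?_) (h2.congr ?_)).congr ?_
  · rintro ⟨⟨⟨p, x⟩, y⟩, i⟩
    rcases y with j | j <;> rfl
  · rintro ⟨⟨⟨p, x⟩, y⟩, i⟩
    rcases y with j | j <;> rfl
  · rintro ⟨⟨p, x⟩, y⟩
    rcases x with i | i <;> rcases y with j | j <;> rfl

theorem dsum_poly : Poly dsum := mat_poly (adj := adjS) labS_poly adjS_poly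

end poly

end Pool.Agent.Y602.ES
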